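import Pool.Agent.Lib.MP_3523e7_pr.Phase

/-! Chase-escape lies between two comparison epidemics. -/

namespace Pool.Agent.Lib.MP_3523e7_pr

open Filter Topology

variable {l a : ℝ}

lemma jumpSum_mono (hl : 0 ≤ l) (ha : 0 ≤ a) {f g : Config → ℝ} (s : Config)
    (h1 : ∀ u ∈ s.1, f (s.1.erase u, insert u s.2) ≤ g (s.1.erase u, insert u s.2))
    (h2 : ∀ w, w ∉ s.1 → f (insert w s.1, s.2) ≤ g (insert w s.1, s.2)) :
    jumpSum l a f s ≤ jumpSum l a g s := by
  refine Finset.sum_le_sum fun u hu => add_le_add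
    (mul_le_mul_of_nonneg_left (h1 u hu) (by positivity))
    (Finset.sum_le_sum fun w hw => mul_le_mul_of_nonneg_left (h2 w ?_) hl)
  simp only [Finset.mem_sdiff, Finset.mem_union, not_or] at hw
  exact hw.2.1

lemma totalRate_eq (s : Config) : totalRate l a s = ∑ u ∈ s.1,
    ((a + ((nbrs u ∩ s.2).card : ℝ)) + ((nbrs u \ (s.1 ∪ s.2)).card : ℝ) * l) := by
  simp [totalRate, jumpSum]

lemma totalRate_pos (hl : 0 ≤ l) (ha : 0 < a) {s : Config} (h : s.1.Nonempty) :
    0 < totalRate l a s := by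
  rw [totalRate_eq]
  exact Finset.sum_pos (fun u _ => by positivity) h

lemma totalRate_empty {s : Config} (h : s.1 = ∅) : totalRate l a s = 0 := by
  rw [totalRate_eq, h, Finset.sum_empty]

lemma fixatedBy_empty (n : ℕ) {s : Config} (h : s.1 = ∅) : fixatedBy l a n s = 1 := by
  cases n <;> simp [fixatedBy, totalRate_empty h]

lemma fixatedBy_zero (hl : 0 ≤ l) (ha : 0 < a) {s : Config} (h : s.1.Nonempty) :
    fixatedBy l a 0 s = 0 := by
  simp [fixatedBy, (totalRate_pos hl ha h).ne']

lemma fixatedBy_succ (hl : 0 ≤ l) (ha : 0 < a) (n : ℕ) {s : Config} (h : s.1.Nonempty) :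
    fixatedBy l a (n + 1) s = jumpSum l a (fixatedBy l a n) s / totalRate l a s := by
  simp [fixatedBy, (totalRate_pos hl ha h).ne']

lemma fixatedBy_bounds (hl : 0 ≤ l) (ha : 0 < a) (n : ℕ) :
    ∀ s, 0 ≤ fixatedBy l a n s ∧ fixatedBy l a n s ≤ 1 := by
  induction n with
  | zero => intro s; simp only [fixatedBy]; split_ifs <;> simp
  | succ n ih =>
    intro s
    rcases s.1.eq_empty_or_nonempty with h | h
    · simp [fixatedBy_empty _ h]
    · have hp := totalRate_pos hl ha h
      rw [fixatedBy_succ hl ha n h]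
      constructor
      · refine div_nonneg ?_ hp.le
        have h0 : jumpSum l a (fun _ => 0) s = 0 := by simp [jumpSum]
        rw [← h0]
        exact jumpSum_mono hl ha.le s (fun _ _ => (ih _).1) fun _ _ => (ih _).1
      · rw [div_le_one hp]
        exact jumpSum_mono hl ha.le s (fun _ _ => (ih _).2) fun _ _ => (ih _).2

lemma fixatedBy_le_succ (hl : 0 ≤ l) (ha : 0 < a) (n : ℕ) :
    ∀ s, fixatedBy l a n s ≤ fixatedBy l a (n + 1) s := by
  induction n with
  | zero =>
    intro s
    rcases s.1.eq_empty_or_nonempty with h | h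
    · simp [fixatedBy_empty _ h]
    · rw [fixatedBy_zero hl ha h]; exact (fixatedBy_bounds hl ha _ _).1
  | succ n ih =>
    intro s
    rcases s.1.eq_empty_or_nonempty with h | h
    · simp [fixatedBy_empty _ h]
    · rw [fixatedBy_succ hl ha n h, fixatedBy_succ hl ha (n + 1) h]
      exact div_le_div_of_nonneg_right
        (jumpSum_mono hl ha.le s (fun _ _ => ih _) fun _ _ => ih _) (totalRate_pos hl ha h).le

/-- fixation probability from any configuration -/
noncomputable def fixProb (l a : ℝ) (s : Config) : ℝ := ⨆ n : ℕ, fixatedBy l a n s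

lemma bdd_fixatedBy (hl : 0 ≤ l) (ha : 0 < a) (s : Config) :
    BddAbove (Set.range fun n => fixatedBy l a n s) :=
  ⟨1, by rintro _ ⟨n, rfl⟩; exact (fixatedBy_bounds hl ha n s).2⟩

lemma le_fixProb (hl : 0 ≤ l) (ha : 0 < a) (n : ℕ) (s : Config) :
    fixatedBy l a n s ≤ fixProb l a s := le_ciSup (bdd_fixatedBy hl ha s) n

lemma fixProb_le_one (hl : 0 ≤ l) (ha : 0 < a) (s : Config) : fixProb l a s ≤ 1 :=
  ciSup_le fun n => (fixatedBy_bounds hl ha n s).2

lemma tendsto_fixProb (hl : 0 ≤ l) (ha : 0 < a) (s : Config) :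
    Tendsto (fun n => fixatedBy l a n s) atTop (𝓝 (fixProb l a s)) :=
  tendsto_atTop_ciSup (monotone_nat_of_le_succ fun n => fixatedBy_le_succ hl ha n s)
    (bdd_fixatedBy hl ha s)

lemma fixProb_super (hl : 0 ≤ l) (ha : 0 < a) {s : Config} (h : s.1.Nonempty) :
    jumpSum l a (fixProb l a) s ≤ totalRate l a s * fixProb l a s := by
  have h1 : Tendsto (fun n => jumpSum l a (fixatedBy l a n) s) atTop
      (𝓝 (jumpSum l a (fixProb l a) s)) := by
    unfold jumpSum
    refine tendsto_finsetSum _ fun u _ => Tendsto.add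
      ((tendsto_fixProb hl ha _).const_mul _) (tendsto_finsetSum _ fun w _ =>
        (tendsto_fixProb hl ha _).const_mul _)
  refine le_of_tendsto' h1 fun n => ?_
  have h2 := le_fixProb hl ha (n + 1) s
  rwa [fixatedBy_succ hl ha n h, div_le_iff₀' (totalRate_pos hl ha h)] at h2

/-- the local identity with rates -/
lemma phi_local' (hl : 0 ≤ l) {b : ℝ} (hb : 0 < b) (n : ℕ) {s : Config} {u : ℤ × ℤ}
    (hu : u ∈ s.1) :
    ∑ w ∈ nbrs u \ (s.1 ∪ s.2), l * phi (l / b) (n + 1) (insert w s.1, s.2)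
      = (b + ((nbrs u \ (s.1 ∪ s.2)).card : ℝ) * l) * phi (l / b) (n + 1) s
        - b * phi (l / b) n (s.1.erase u, insert u s.2) := by
  have h := phi_local (t := l / b) (by positivity) n hu
  rw [← Finset.mul_sum]
  have h2 := congrArg (fun x => b * x) h
  field_simp at h2
  linarith

theorem fixatedBy_le_phi (hl : 0 ≤ l) (ha : 0 < a) (n : ℕ) :
    ∀ s, fixatedBy l a n s ≤ phi (l / (a + 4)) n s := by
  have ht : 0 ≤ l / (a + 4) := by positivity
  induction n with
  | zero =>
    intro s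
    rcases s.1.eq_empty_or_nonempty with h | h
    · rw [fixatedBy_empty _ h, phi_empty _ _ h]
    · rw [fixatedBy_zero hl ha h]; exact (phi_bounds ht _ _).1
  | succ n ih =>
    intro s
    rcases s.1.eq_empty_or_nonempty with h | h
    · rw [fixatedBy_empty _ h, phi_empty _ _ h]
    · rw [fixatedBy_succ hl ha n h, div_le_iff₀' (totalRate_pos hl ha h), totalRate_eq,
        Finset.sum_mul]
      refine Finset.sum_le_sum fun u hu => ?_
      have h1 : ∑ w ∈ nbrs u \ (s.1 ∪ s.2), l * fixatedBy l a n (insert w s.1, s.2)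
          ≤ ∑ w ∈ nbrs u \ (s.1 ∪ s.2), l * phi (l / (a + 4)) (n + 1) (insert w s.1, s.2) :=
        Finset.sum_le_sum fun w _ =>
          mul_le_mul_of_nonneg_left ((ih _).trans (phi_le_succ ht n _)) hl
      rw [phi_local' hl (by linarith) n hu] at h1
      have h2 := ih (s.1.erase u, insert u s.2)
      have h3 := phi_succ_le_toBlue ht n hu
      have h4 : ((nbrs u ∩ s.2).card : ℝ) ≤ 4 := by
        exact_mod_cast (Finset.card_le_card Finset.inter_subset_left).trans (card_nbrs_le u)
      have h5 : (0 : ℝ) ≤ a + ((nbrs u ∩ s.2).card : ℝ) := by positivity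
      nlinarith [mul_le_mul_of_nonneg_left h2 h5, mul_le_mul_of_nonneg_left h3 (sub_nonneg.2 h4)]

theorem phi_le_fixProb (hl : 0 ≤ l) (ha : 0 < a) (n : ℕ) :
    ∀ s, phi (l / a) n s ≤ fixProb l a s := by
  have ht : 0 ≤ l / a := by positivity
  have hemp : ∀ n (s : Config), s.1 = ∅ → phi (l / a) n s ≤ fixProb l a s := by
    intro n s h
    rw [phi_empty _ _ h, ← fixatedBy_empty (l := l) (a := a) 0 h]
    exact le_fixProb hl ha 0 s
  have hnn : ∀ s, 0 ≤ fixProb l a s := fun s =>
    (fixatedBy_bounds hl ha 0 s).1.trans (le_fixProb hl ha 0 s)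
  induction n with
  | zero =>
    intro s
    rcases s.1.eq_empty_or_nonempty with h | h
    · exact hemp 0 s h
    · rw [phi_eq_zero ht 0 s h.card_pos]; exact hnn s
  | succ n ih =>
    have key : ∀ k : ℕ, ∀ s : Config, n + 2 ≤ s.1.card + k →
        phi (l / a) (n + 1) s ≤ fixProb l a s := by
      intro k
      induction k with
      | zero => intro s hs; rw [phi_eq_zero ht _ s (by omega)]; exact hnn s
      | succ k ihk =>
        intro s hs
        rcases s.1.eq_empty_or_nonempty with h | h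
        · exact hemp _ s h
        refine le_of_mul_le_mul_left (le_trans ?_ (fixProb_super hl ha h)) (totalRate_pos hl ha h)
        rw [totalRate_eq, Finset.sum_mul]
        refine Finset.sum_le_sum fun u hu => ?_
        have h1 : ∑ w ∈ nbrs u \ (s.1 ∪ s.2), l * phi (l / a) (n + 1) (insert w s.1, s.2)
            ≤ ∑ w ∈ nbrs u \ (s.1 ∪ s.2), l * fixProb l a (insert w s.1, s.2) := by
          refine Finset.sum_le_sum fun w hw => mul_le_mul_of_nonneg_left (ihk _ ?_) hl
          simp only [Finset.mem_sdiff, Finset.mem_union, not_or] at hw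
          simp only [Finset.card_insert_of_notMem hw.2.1]
          omega
        rw [phi_local' hl ha n hu] at h1
        have h2 := ih (s.1.erase u, insert u s.2)
        have h3 := phi_succ_le_toBlue ht n hu
        have h4 : (0 : ℝ) ≤ ((nbrs u ∩ s.2).card : ℝ) := by positivity
        have h5 : (0 : ℝ) ≤ a + ((nbrs u ∩ s.2).card : ℝ) := by positivity
        nlinarith [mul_le_mul_of_nonneg_left h2 h5, mul_le_mul_of_nonneg_left h3 h4]
    intro s
    exact key (n + 2) s (by omega)

/-- ratios at which the comparison epidemic dies out almost surely -/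
def dieSet : Set ℝ := {t | 0 < t ∧ ∀ ε > 0, ∃ n, 1 - ε ≤ phi t n ({(0, 0)}, ∅)}

lemma mem_dieSet : (1 / 128 : ℝ) ∈ dieSet := by
  refine ⟨by norm_num, fun ε hε => ?_⟩
  obtain ⟨n, hn⟩ := exists_pow_lt_of_lt_one (half_pos hε) (show (3 / 4 : ℝ) < 1 by norm_num)
  refine ⟨n, ?_⟩
  have := one_sub_phi_le n ({(0, 0)}, ∅)
  simp only [Finset.card_singleton, pow_one] at this
  linarith

lemma dieSet_le {t : ℝ} (ht : t ∈ dieSet) : t ≤ 79 := by
  by_contra h
  obtain ⟨n, hn⟩ := ht.2 (1 / 4) (by norm_num)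
  have := phi_init_le (le_of_lt (not_le.mp h)) n
  linarith

lemma mem_of_dieSet (ha : 0 < a) {t : ℝ} (ht : t ∈ dieSet) :
    0 < t * a ∧ probFinite (t * a) a = 1 := by
  have hl : 0 < t * a := mul_pos ht.1 ha
  refine ⟨hl, le_antisymm (fixProb_le_one hl.le ha _) (le_of_forall_pos_le_add fun ε hε => ?_)⟩
  obtain ⟨n, hn⟩ := ht.2 ε hε
  have := phi_le_fixProb hl.le ha n ({(0, 0)}, ∅)
  rw [mul_div_cancel_right₀ _ ha.ne'] at this
  change 1 ≤ fixProb (t * a) a ({(0, 0)}, ∅) + ε
  linarith

lemma dieSet_of_mem (ha : 0 < a) (hl : 0 < l) (h : probFinite l a = 1) :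
    l / (a + 4) ∈ dieSet := by
  refine ⟨by positivity, fun ε hε => ?_⟩
  have h1 : 1 - ε < probFinite l a := by linarith
  obtain ⟨n, hn⟩ := exists_lt_of_lt_ciSup h1
  exact ⟨n, hn.le.trans (fixatedBy_le_phi hl.le ha n _)⟩

theorem critRate_bounds (ha : 0 < a) :
    sSup dieSet * a ≤ critRate a ∧ critRate a ≤ sSup dieSet * (a + 4) := by
  have hbdd : BddAbove dieSet := ⟨79, fun _ h => dieSet_le h⟩
  have hup : ∀ x ∈ {l : ℝ | 0 < l ∧ probFinite l a = 1}, x ≤ sSup dieSet * (a + 4) := by
    intro x hx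
    have := le_csSup hbdd (dieSet_of_mem ha hx.1 hx.2)
    rwa [div_le_iff₀ (by linarith)] at this
  constructor
  · rw [← le_div_iff₀ ha]
    refine csSup_le ⟨_, mem_dieSet⟩ fun t ht => ?_
    rw [le_div_iff₀ ha]
    exact le_csSup ⟨_, hup⟩ (mem_of_dieSet ha ht)
  · exact csSup_le ⟨_, mem_of_dieSet ha mem_dieSet⟩ hup

theorem sSup_dieSet_pos : 0 < sSup dieSet :=
  lt_of_lt_of_le (by norm_num) (le_csSup ⟨79, fun _ h => dieSet_le h⟩ mem_dieSet)

theorem tendsto_critRate : Tendsto (fun a => critRate a / a) atTop (𝓝 (sSup dieSet)) := by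
  have h1 : Tendsto (fun a : ℝ => sSup dieSet + 4 * sSup dieSet / a) atTop (𝓝 (sSup dieSet)) := by
    simpa using (tendsto_const_nhds (x := sSup dieSet)).add
      ((tendsto_const_nhds (x := 4 * sSup dieSet)).div_atTop tendsto_id)
  refine tendsto_of_tendsto_of_tendsto_of_le_of_le' tendsto_const_nhds h1 ?_ ?_
  · filter_upwards [eventually_gt_atTop 0] with a ha
    rw [le_div_iff₀ ha]
    exact (critRate_bounds ha).1
  · filter_upwards [eventually_gt_atTop 0] with a ha
    rw [div_le_iff₀ ha]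
    refine (critRate_bounds ha).2.trans (le_of_eq ?_)
    field_simp

end Pool.Agent.Lib.MP_3523e7_pr
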