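import Pool.Agent.Lib.MP_3523e7_pr.Sir

/-! The inner boundary of a finite set containing the origin crosses from the east ray to the
west ray. -/

namespace Pool.Agent.Lib.MP_3523e7_pr

/-- inner boundary -/
def Bd (B : Finset (ℤ × ℤ)) (v : ℤ × ℤ) : Prop := v ∈ B ∧ ∃ w ∈ nbrs v, w ∉ B

/-- king moves inside the inner boundary -/
def bdGraph (B : Finset (ℤ × ℤ)) : SimpleGraph (ℤ × ℤ) where
  Adj v w := v ≠ w ∧ Bd B v ∧ Bd B w ∧ |v.1 - w.1| ≤ 1 ∧ |v.2 - w.2| ≤ 1
  symm := ⟨fun _ _ h => ⟨h.1.symm, h.2.2.1, h.2.1, by rw [abs_sub_comm]; exact h.2.2.2.1,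
    by rw [abs_sub_comm]; exact h.2.2.2.2⟩⟩
  loopless := ⟨fun _ h => h.1 rfl⟩

lemma walk_support_bd {B : Finset (ℤ × ℤ)} {v w : ℤ × ℤ} (p : (bdGraph B).Walk v w)
    (hv : Bd B v) : ∀ z ∈ p.support, Bd B z := by
  induction p with
  | nil => simpa using hv
  | cons h p ih =>
    intro z hz
    rw [SimpleGraph.Walk.support_cons, List.mem_cons] at hz
    rcases hz with rfl | hz
    · exact hv
    · exact ih h.2.2.1 z hz

set_option synthInstance.maxSize 4096 in
lemma square_bool : ∀ bp bq br bs kp kq kr ks : Bool,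
    (kp → bp) → (kq → bq) → (kr → br) → (ks → bs) →
    ((bp && (!bq || !bs)) → (bq && (!bp || !br)) → kp = kq) →
    ((bp && (!bq || !bs)) → (br && (!bq || !bs)) → kp = kr) →
    ((bp && (!bq || !bs)) → (bs && (!bp || !br)) → kp = ks) →
    ((bq && (!bp || !br)) → (br && (!bq || !bs)) → kq = kr) →
    ((bq && (!bp || !br)) → (bs && (!bp || !br)) → kq = ks) →
    ((br && (!bq || !bs)) → (bs && (!bp || !br)) → kr = ks) →
    (if (kp && !bq) || (kq && !bp) then (1 : ZMod 2) else 0)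
      + (if (ks && !br) || (kr && !bs) then 1 else 0)
      = (if (kq && !br) || (kr && !bq) then 1 else 0)
      - (if (kp && !bs) || (ks && !bp) then 1 else 0) := by
  decide

theorem exists_cross (B : Finset (ℤ × ℤ)) (h0 : ((0, 0) : ℤ × ℤ) ∈ B) :
    ∃ x y : ℤ, 0 ≤ x ∧ y ≤ 0 ∧ Bd B (x, 0) ∧ (bdGraph B).Reachable (x, 0) (y, 0) := by
  classical
  let K : ℤ × ℤ → Prop := fun v => ∃ x : ℤ, 0 ≤ x ∧ Bd B (x, 0) ∧ (bdGraph B).Reachable (x, 0) v
  have hKB : ∀ v, K v → v ∈ B := by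
    rintro v ⟨x, _, hx, ⟨p⟩⟩
    exact (walk_support_bd p hx v p.end_mem_support).1
  have hKK : ∀ v w, Bd B v → Bd B w → |v.1 - w.1| ≤ 1 → |v.2 - w.2| ≤ 1 → K v → K w := by
    rintro v w hv hw h1 h2 ⟨x, hx, hx', hr⟩
    by_cases hvw : v = w
    · exact ⟨x, hx, hx', hvw ▸ hr⟩
    · exact ⟨x, hx, hx', hr.trans (SimpleGraph.Adj.reachable ⟨hvw, hv, hw, h1, h2⟩)⟩
  have hKe : ∀ v w, Bd B v → Bd B w → |v.1 - w.1| ≤ 1 → |v.2 - w.2| ≤ 1 →
      decide (K v) = decide (K w) := by
    intro v w hv hw h1 h2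
    rw [decide_eq_decide]
    exact ⟨hKK v w hv hw h1 h2, hKK w v hw hv (by rwa [abs_sub_comm]) (by rwa [abs_sub_comm])⟩
  let chi : ℤ × ℤ → ℤ × ℤ → ZMod 2 := fun v w =>
    if (decide (K v) && !decide (w ∈ B)) || (decide (K w) && !decide (v ∈ B)) then 1 else 0
  have hsq : ∀ x y : ℤ, chi (x, y) (x + 1, y) + chi (x, y + 1) (x + 1, y + 1)
      = chi (x + 1, y) (x + 1, y + 1) - chi (x, y) (x, y + 1) := by
    intro x y
    have dp : (decide ((x, y) ∈ B) && (!decide ((x + 1, y) ∈ B) || !decide ((x, y + 1) ∈ B)))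
        → Bd B (x, y) := by
      simp only [Bool.and_eq_true, Bool.or_eq_true, decide_eq_true_eq, Bool.not_eq_true',
        decide_eq_false_iff_not]
      rintro ⟨h, h' | h'⟩ <;> exact ⟨h, _, by simp [mem_nbrs], h'⟩
    have dq : (decide ((x + 1, y) ∈ B) && (!decide ((x, y) ∈ B) || !decide ((x + 1, y + 1) ∈ B)))
        → Bd B (x + 1, y) := by
      simp only [Bool.and_eq_true, Bool.or_eq_true, decide_eq_true_eq, Bool.not_eq_true',
        decide_eq_false_iff_not]
      rintro ⟨h, h' | h'⟩ <;> exact ⟨h, _, by simp [mem_nbrs], h'⟩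
    have dr : (decide ((x + 1, y + 1) ∈ B) &&
        (!decide ((x + 1, y) ∈ B) || !decide ((x, y + 1) ∈ B))) → Bd B (x + 1, y + 1) := by
      simp only [Bool.and_eq_true, Bool.or_eq_true, decide_eq_true_eq, Bool.not_eq_true',
        decide_eq_false_iff_not]
      rintro ⟨h, h' | h'⟩ <;> exact ⟨h, _, by simp [mem_nbrs], h'⟩
    have ds : (decide ((x, y + 1) ∈ B) && (!decide ((x, y) ∈ B) || !decide ((x + 1, y + 1) ∈ B)))
        → Bd B (x, y + 1) := by
      simp only [Bool.and_eq_true, Bool.or_eq_true, decide_eq_true_eq, Bool.not_eq_true',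
        decide_eq_false_iff_not]
      rintro ⟨h, h' | h'⟩ <;> exact ⟨h, _, by simp [mem_nbrs], h'⟩
    have hk : ∀ v, decide (K v) = true → decide (v ∈ B) = true := fun v h => by
      simpa using hKB v (by simpa using h)
    exact square_bool _ _ _ _ _ _ _ _ (hk _) (hk _) (hk _) (hk _)
      (fun h h' => hKe _ _ (dp h) (dq h') (by simp) (by simp))
      (fun h h' => hKe _ _ (dp h) (dr h') (by simp) (by simp))
      (fun h h' => hKe _ _ (dp h) (ds h') (by simp) (by simp))
      (fun h h' => hKe _ _ (dq h) (dr h') (by simp) (by simp))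
      (fun h h' => hKe _ _ (dq h) (ds h') (by simp) (by simp))
      (fun h h' => hKe _ _ (dr h) (ds h') (by simp) (by simp))
  obtain ⟨M, hM⟩ : ∃ M : ℕ, ∀ v ∈ B, |v.1| < M ∧ |v.2| < M := by
    refine ⟨B.sup (fun v => v.1.natAbs + v.2.natAbs) + 1, fun v hv => ?_⟩
    have := Finset.le_sup (f := fun v : ℤ × ℤ => v.1.natAbs + v.2.natAbs) hv
    rw [Int.abs_eq_natAbs, Int.abs_eq_natAbs]
    omega
  have hout : ∀ v w, v ∉ B → w ∉ B → chi v w = 0 := by
    intro v w hv hw
    have h1 : ¬ K v := fun h => hv (hKB v h)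
    have h2 : ¬ K w := fun h => hw (hKB w h)
    simp [chi, h1, h2]
  let row : ℤ → ZMod 2 := fun y => ∑ i ∈ Finset.range (M + M), chi ((i : ℤ) - M, y) ((i : ℤ) - M + 1, y)
  have hrow : ∀ y, row y + row (y + 1) = 0 := by
    intro y
    simp only [row]
    rw [← Finset.sum_add_distrib]
    simp only [hsq]
    have := Finset.sum_range_sub (fun i : ℕ => chi ((i : ℤ) - M, y) ((i : ℤ) - M, y + 1)) (M + M)
    have e : ∀ i : ℕ, ((i + 1 : ℕ) : ℤ) - M = (i : ℤ) - M + 1 := fun i => by push_cast; ring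
    simp only [e] at this
    rw [this, hout, hout, sub_zero]
    all_goals
      intro h
      have := (hM _ h).1
      simp at this
  have hrowM : row M = 0 := by
    refine Finset.sum_eq_zero fun i _ => hout _ _ ?_ ?_
    all_goals
      intro h
      have := (hM _ h).2
      simp at this
  have hrow0 : ∀ j : ℕ, row j = row 0 := by
    intro j
    induction j with
    | zero => rfl
    | succ j ih =>
      have := hrow j
      rw [ih, add_eq_zero_iff_eq_neg, ZMod.neg_eq_self_mod_two] at this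
      push_cast
      exact this.symm
  have hzero : row 0 = 0 := by rw [← hrow0 M, hrowM]
  let b : ℕ → ZMod 2 := fun i => if ((i : ℤ), (0 : ℤ)) ∈ B then 1 else 0
  have heast : ∀ i : ℕ, chi (((M + i : ℕ) : ℤ) - M, 0) (((M + i : ℕ) : ℤ) - M + 1, 0)
      = b (i + 1) - b i := by
    intro i
    have e : ((M + i : ℕ) : ℤ) - M = i := by push_cast; ring
    rw [e]
    simp only [b, chi]
    push_cast
    by_cases h1 : ((i : ℤ), (0 : ℤ)) ∈ B <;> by_cases h2 : ((i : ℤ) + 1, (0 : ℤ)) ∈ B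
    · simp [h1, h2]
    · have : K ((i : ℤ), 0) := ⟨i, by positivity, ⟨h1, _, by simp [mem_nbrs], h2⟩, .refl _⟩
      simp [h1, h2, this]
    · have : K ((i : ℤ) + 1, 0) :=
        ⟨i + 1, by positivity, ⟨h2, _, by simp [mem_nbrs], h1⟩, .refl _⟩
      simp [h1, h2, this]
    · have h3 : ¬ K ((i : ℤ), 0) := fun h => h1 (hKB _ h)
      have h4 : ¬ K ((i : ℤ) + 1, 0) := fun h => h2 (hKB _ h)
      simp [h1, h2, h3, h4]
  have hbM : b M = 0 := by
    have : ((M : ℤ), (0 : ℤ)) ∉ B := fun h => by simpa using (hM _ h).1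
    simp [b, this]
  have hb0 : b 0 = 1 := by simp [b, h0]
  simp only [row] at hzero
  rw [Finset.sum_range_add] at hzero
  simp only [heast] at hzero
  rw [Finset.sum_range_sub, hbM, hb0] at hzero
  have hne : ∑ i ∈ Finset.range M, chi ((i : ℤ) - M, 0) ((i : ℤ) - M + 1, 0) ≠ 0 := by
    intro h
    rw [h] at hzero
    exact absurd hzero (by decide)
  obtain ⟨i, hi, hi'⟩ := Finset.exists_ne_zero_of_sum_ne_zero hne
  rw [Finset.mem_range] at hi
  by_cases h1 : K ((i : ℤ) - M, 0)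
  · obtain ⟨x, hx, hx', hr⟩ := h1
    exact ⟨x, _, hx, by omega, hx', hr⟩
  by_cases h2 : K ((i : ℤ) - M + 1, 0)
  · obtain ⟨x, hx, hx', hr⟩ := h2
    exact ⟨x, _, hx, by omega, hx', hr⟩
  exact absurd (by simp [chi, h1, h2]) hi'

/-- lists of `m + 1` vertices starting at `v` with king moves -/
noncomputable def kingWalks : ℕ → ℤ × ℤ → Finset (List (ℤ × ℤ))
  | 0, v => {[v]}
  | m + 1, v => (Finset.Icc (v.1 - 1) (v.1 + 1) ×ˢ Finset.Icc (v.2 - 1) (v.2 + 1)).biUnion
      fun w => (kingWalks m w).image (List.cons v)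

lemma card_kingWalks (m : ℕ) : ∀ v, (kingWalks m v).card ≤ 9 ^ m := by
  induction m with
  | zero => intro v; simp [kingWalks]
  | succ m ih =>
    intro v
    refine (Finset.card_biUnion_le_card_mul _ _ (9 ^ m) fun w _ =>
      Finset.card_image_le.trans (ih w)).trans ?_
    have h1 : ∀ x : ℤ, (Finset.Icc (x - 1) (x + 1)).card = 3 := fun x => by
      rw [Int.card_Icc]; omega
    rw [Finset.card_product, h1, h1, pow_succ]
    omega

lemma length_kingWalks (m : ℕ) : ∀ v, ∀ l ∈ kingWalks m v, l.length = m + 1 := by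
  induction m with
  | zero => intro v l hl; simp only [kingWalks, Finset.mem_singleton] at hl; simp [hl]
  | succ m ih =>
    intro v l hl
    simp only [kingWalks, Finset.mem_biUnion, Finset.mem_image] at hl
    obtain ⟨w, _, l', hl', rfl⟩ := hl
    simp [ih w l' hl']

lemma support_mem_kingWalks {B : Finset (ℤ × ℤ)} {v w : ℤ × ℤ} (p : (bdGraph B).Walk v w) :
    p.support ∈ kingWalks p.length v ∧ v.1 - w.1 ≤ p.length := by
  induction p with
  | nil => simp [kingWalks]
  | @cons u v w h p ih =>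
    have h1 := abs_le.mp h.2.2.2.1
    have h2 := abs_le.mp h.2.2.2.2
    constructor
    · simp only [SimpleGraph.Walk.support_cons, SimpleGraph.Walk.length_cons, kingWalks,
        Finset.mem_biUnion, Finset.mem_image, Finset.mem_product, Finset.mem_Icc]
      exact ⟨v, by omega, _, ih.1, rfl⟩
    · simp only [SimpleGraph.Walk.length_cons]
      push_cast
      omega

theorem exists_contour (B : Finset (ℤ × ℤ)) (h0 : ((0, 0) : ℤ × ℤ) ∈ B) :
    ∃ m x : ℕ, m < B.card ∧ x < m + 1 ∧ ∃ l ∈ kingWalks m ((x : ℤ), 0), l.Nodup ∧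
      ∀ v ∈ l, Bd B v := by
  classical
  obtain ⟨x, y, hx, hy, hb, ⟨p⟩⟩ := exists_cross B h0
  obtain ⟨x, rfl⟩ := Int.eq_ofNat_of_zero_le hx
  have hq := p.bypass_isPath
  set q := p.bypass
  have h1 := support_mem_kingWalks q
  have h2 := walk_support_bd q hb
  refine ⟨q.length, x, ?_, ?_, q.support, h1.1, hq.support_nodup, h2⟩
  · have h3 : q.support.toFinset ⊆ B := fun v hv => (h2 v (List.mem_toFinset.mp hv)).1
    have h4 := Finset.card_le_card h3
    rw [List.toFinset_card_of_nodup hq.support_nodup, SimpleGraph.Walk.length_support] at h4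
    omega
  · have := h1.2
    simp only at this
    omega

end Pool.Agent.Lib.MP_3523e7_pr
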