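import Mathlib

namespace Pool.Agent.Lib.MP_3523e7_pr

/-- The four nearest neighbours of a vertex of the square lattice. -/
def nbrs (v : ℤ × ℤ) : Finset (ℤ × ℤ) :=
  {(v.1 + 1, v.2), (v.1 - 1, v.2), (v.1, v.2 + 1), (v.1, v.2 - 1)}

/-- A configuration reached from the initial one: the finite set of red vertices and the finite
set of blue vertices; every other vertex is white. -/
abbrev Config : Type := Finset (ℤ × ℤ) × Finset (ℤ × ℤ)

/-- The sum, over all transitions out of the configuration `s`, of the rate of the transition
times the value of `f` at the new configuration.  A red vertex `u` turns blue at rate `a`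
(conversion) plus `1` for each blue neighbour (predation); along each edge from a red vertex `u`
to a white vertex `w`, the vertex `w` turns red at rate `l`. -/
noncomputable def jumpSum (l a : ℝ) (f : Config → ℝ) (s : Config) : ℝ :=
  ∑ u ∈ s.1, ((a + ((nbrs u ∩ s.2).card : ℝ)) * f (s.1.erase u, insert u s.2)
    + ∑ w ∈ nbrs u \ (s.1 ∪ s.2), l * f (insert w s.1, s.2))

/-- The total jump rate out of `s`; the process has fixated when it is `0`. -/
noncomputable def totalRate (l a : ℝ) (s : Config) : ℝ := jumpSum l a (fun _ => 1) s

/-- The probability that the process started at `s` has fixated after at most `n` jumps: each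
jump chooses a transition with probability its rate divided by the total rate. -/
noncomputable def fixatedBy (l a : ℝ) : ℕ → Config → ℝ
  | 0, s => if totalRate l a s = 0 then 1 else 0
  | n + 1, s =>
    if totalRate l a s = 0 then 1 else jumpSum l a (fixatedBy l a n) s / totalRate l a s

/-- `P(X < ∞)`: the probability of fixating after finitely many jumps, starting with the origin
red and every other vertex white. -/
noncomputable def probFinite (l a : ℝ) : ℝ := ⨆ n : ℕ, fixatedBy l a n ({(0, 0)}, ∅)

/-- The critical rate `λ_c(α)`. -/
noncomputable def critRate (a : ℝ) : ℝ := sSup {l : ℝ | 0 < l ∧ probFinite l a = 1}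

end Pool.Agent.Lib.MP_3523e7_pr
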