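import Mathlib

/-! The law of the set of neighbours a vertex tries to infect before it recovers. -/

namespace Pool.Agent.Lib.MP_3523e7_pr

/-- weight of a set of `j` directions -/
noncomputable def wt (t : ℝ) : ℕ → ℝ
  | 0 => 1 / (1 + 4 * t)
  | 1 => t / ((1 + 4 * t) * (1 + 3 * t))
  | 2 => 2 * t ^ 2 / ((1 + 4 * t) * (1 + 3 * t) * (1 + 2 * t))
  | 3 => 6 * t ^ 3 / ((1 + 4 * t) * (1 + 3 * t) * (1 + 2 * t) * (1 + t))
  | _ => 24 * t ^ 4 / ((1 + 4 * t) * (1 + 3 * t) * (1 + 2 * t) * (1 + t))

/-- a set of directions -/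
abbrev Dirs : Type := Bool × Bool × Bool × Bool

/-- number of directions -/
def cnt (a : Dirs) : ℕ := a.1.toNat + a.2.1.toNat + a.2.2.1.toNat + a.2.2.2.toNat

/-- expectation over the random set of directions -/
noncomputable def ex (t : ℝ) (G : Dirs → ℝ) : ℝ := ∑ a : Dirs, wt t (cnt a) * G a

/-- intersection of two sets of directions -/
def inter (a d : Dirs) : Dirs :=
  (a.1 && d.1, a.2.1 && d.2.1, a.2.2.1 && d.2.2.1, a.2.2.2 && d.2.2.2)

lemma wt_nonneg {t : ℝ} (ht : 0 ≤ t) (j : ℕ) : 0 ≤ wt t j := by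
  unfold wt
  split <;> positivity

lemma ex_expand (t : ℝ) (G : Dirs → ℝ) : ex t G =
    wt t 0 * G (false, false, false, false)
    + wt t 1 * (G (true, false, false, false) + G (false, true, false, false)
      + G (false, false, true, false) + G (false, false, false, true))
    + wt t 2 * (G (true, true, false, false) + G (true, false, true, false)
      + G (true, false, false, true) + G (false, true, true, false)
      + G (false, true, false, true) + G (false, false, true, true))
    + wt t 3 * (G (false, true, true, true) + G (true, false, true, true)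
      + G (true, true, false, true) + G (true, true, true, false))
    + wt t 4 * G (true, true, true, true) := by
  simp only [ex, Fintype.sum_prod_type, Fintype.sum_bool, cnt, Bool.toNat_true, Bool.toNat_false]
  ring

lemma ex_one {t : ℝ} (ht : 0 ≤ t) : ex t (fun _ => 1) = 1 := by
  rw [ex_expand]
  simp only [wt]
  field_simp
  ring

lemma ex_mono {t : ℝ} (ht : 0 ≤ t) {G H : Dirs → ℝ} (h : ∀ a, G a ≤ H a) : ex t G ≤ ex t H :=
  Finset.sum_le_sum fun a _ => mul_le_mul_of_nonneg_left (h a) (wt_nonneg ht _)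

lemma ex_const {t : ℝ} (ht : 0 ≤ t) (c : ℝ) : ex t (fun _ => c) = c := by
  have := ex_one ht
  simp only [ex, mul_one] at this ⊢
  rw [← Finset.sum_mul, this, one_mul]

lemma ex_comm (t : ℝ) (G : Dirs → Dirs → ℝ) :
    ex t (fun a => ex t (fun b => G a b)) = ex t (fun b => ex t (fun a => G a b)) := by
  simp only [ex, Finset.mul_sum]
  rw [Finset.sum_comm]
  refine Finset.sum_congr rfl fun a _ => Finset.sum_congr rfl fun b _ => by ring

lemma ex_mul (t c : ℝ) (G : Dirs → ℝ) : ex t (fun a => c * G a) = c * ex t G := by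
  simp only [ex, Finset.mul_sum]
  exact Finset.sum_congr rfl fun a _ => by ring

lemma ex_sum (t : ℝ) {ι : Type*} (s : Finset ι) (G : ι → Dirs → ℝ) :
    ex t (fun a => ∑ i ∈ s, G i a) = ∑ i ∈ s, ex t (G i) := by
  simp only [ex, Finset.mul_sum]
  rw [Finset.sum_comm]

lemma ex_sub (t : ℝ) (G H : Dirs → ℝ) : ex t (fun a => G a - H a) = ex t G - ex t H := by
  simp only [ex, mul_sub, Finset.sum_sub_distrib]

/-- the memoryless identity -/
lemma ex_memoryless {t : ℝ} (ht : 0 ≤ t) (d : Dirs) (H : Dirs → ℝ) :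
    (1 + t * cnt d) * ex t (fun a => H (inter a d)) = H (false, false, false, false)
      + t * ((if d.1 then ex t (fun a => H (inter (true, a.2.1, a.2.2.1, a.2.2.2) d)) else 0)
        + (if d.2.1 then ex t (fun a => H (inter (a.1, true, a.2.2.1, a.2.2.2) d)) else 0)
        + (if d.2.2.1 then ex t (fun a => H (inter (a.1, a.2.1, true, a.2.2.2) d)) else 0)
        + (if d.2.2.2 then ex t (fun a => H (inter (a.1, a.2.1, a.2.2.1, true) d)) else 0)) := by
  obtain ⟨d1, d2, d3, d4⟩ := d
  have h1 : 1 + 4 * t ≠ 0 := by positivity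
  have h2 : 1 + 3 * t ≠ 0 := by positivity
  have h3 : 1 + 2 * t ≠ 0 := by positivity
  have h4 : 1 + t ≠ 0 := by positivity
  cases d1 <;> cases d2 <;> cases d3 <;> cases d4 <;>
  · simp only [ex_expand, inter, cnt, wt, Bool.and_true, Bool.and_false, Bool.toNat_true,
      Bool.toNat_false, Bool.false_eq_true, if_true, if_false]
    push_cast
    field_simp
    ring

lemma ex_not_all {t : ℝ} (ht : 0 ≤ t) :
    ex t (fun a => if a = (true, true, true, true) then 0 else 1) ≤ 4 / (1 + t) := by
  rw [ex_expand]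
  simp only [wt, Prod.mk.injEq, Bool.false_eq_true, false_and, and_false, if_false, if_true]
  rw [le_div_iff₀ (by positivity)]
  field_simp
  nlinarith [mul_nonneg ht ht, mul_nonneg ht (mul_nonneg ht ht),
    mul_nonneg (mul_nonneg ht ht) (mul_nonneg ht ht)]

lemma ex_two_pow : ex (1 / 128) (fun a => (2 : ℝ) ^ cnt a) ≤ 3 / 2 := by
  rw [ex_expand]
  simp only [wt, cnt, Bool.toNat_true, Bool.toNat_false]
  norm_num

end Pool.Agent.Lib.MP_3523e7_pr
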