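import Pool.Agent.Lib.MP_3523e7_pr.Contour

/-! The comparison epidemic dies out for small ratio and survives for large ratio. -/

namespace Pool.Agent.Lib.MP_3523e7_pr

variable {t : ℝ}

lemma card_proc_le {u : ℤ × ℤ} (a : Dirs) {s : Config} (hu : u ∈ s.1) :
    (proc u a s).1.card + 1 ≤ s.1.card + cnt a := by
  have h1 : u ∈ s.1 ∪ (tgt u a \ s.2) := Finset.mem_union_left _ hu
  have h2 := Finset.card_erase_add_one h1
  have h3 := Finset.card_union_le s.1 (tgt u a \ s.2)
  have h4 : (tgt u a \ s.2).card ≤ (tgt u a).card := Finset.card_le_card Finset.sdiff_subset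
  have h5 := card_tgt_le u a
  simp only [proc]
  omega

lemma one_sub_phi_le (n : ℕ) : ∀ s : Config,
    1 - phi (1 / 128) n s ≤ 2 ^ s.1.card * (3 / 4 : ℝ) ^ n := by
  have ht : (0 : ℝ) ≤ 1 / 128 := by norm_num
  induction n with
  | zero =>
    intro s
    have h1 := (phi_bounds ht 0 s).1
    have h2 : (1 : ℝ) ≤ 2 ^ s.1.card := one_le_pow₀ (by norm_num)
    simp only [pow_zero, mul_one]
    linarith
  | succ n ih =>
    intro s
    rcases s.1.eq_empty_or_nonempty with h | ⟨u, hu⟩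
    · rw [phi_empty _ _ h, sub_self]; positivity
    · rw [phi_succ _ n hu]
      have h1 : 1 - ex (1 / 128) (fun a => phi (1 / 128) n (proc u a s))
          = ex (1 / 128) (fun a => 1 - phi (1 / 128) n (proc u a s)) := by
        rw [ex_sub, ex_one ht]
      rw [h1]
      have h2 : ∀ a, 1 - phi (1 / 128) n (proc u a s)
          ≤ (2 ^ s.1.card * (3 / 4 : ℝ) ^ n / 2) * 2 ^ cnt a := by
        intro a
        refine (ih _).trans ?_
        have h3 : (2 : ℝ) ^ ((proc u a s).1.card + 1) ≤ 2 ^ (s.1.card + cnt a) :=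
          pow_le_pow_right₀ (by norm_num) (card_proc_le a hu)
        rw [pow_succ, pow_add] at h3
        have h4 : (0 : ℝ) ≤ (3 / 4 : ℝ) ^ n := by positivity
        nlinarith
      refine (ex_mono ht h2).trans ?_
      rw [ex_mul, pow_succ]
      have h5 : (0 : ℝ) ≤ 2 ^ s.1.card * (3 / 4 : ℝ) ^ n / 2 := by positivity
      nlinarith [ex_two_pow]

open Classical in
/-- the factor of a vertex in the weight of a contour -/
noncomputable def fac (s : Config) (v : ℤ × ℤ) : ℝ :=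
  if v ∈ s.2 then (if ∃ w ∈ nbrs v, w ∉ s.1 ∪ s.2 then 1 else 0) else 1 / 20

lemma fac_nonneg (s : Config) (v : ℤ × ℤ) : 0 ≤ fac s v := by
  unfold fac
  split_ifs <;> norm_num

lemma union_subset_proc (u : ℤ × ℤ) (a : Dirs) (s : Config) :
    s.1 ∪ s.2 ∪ tgt u a ⊆ (proc u a s).1 ∪ (proc u a s).2 := by
  intro w hw
  simp only [Finset.mem_union, mem_proc] at hw ⊢
  simp only [proc, Finset.mem_insert]
  tauto

lemma fac_proc_le (u : ℤ × ℤ) (a : Dirs) (s : Config) (v : ℤ × ℤ) (h : v ≠ u ∨ u ∈ s.2) :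
    fac (proc u a s) v ≤ fac s v := by
  have h1 : v ∈ (proc u a s).2 ↔ v ∈ s.2 := by
    simp only [proc, Finset.mem_insert]
    constructor
    · rintro (rfl | h')
      · exact h.resolve_left (by simp)
      · exact h'
    · exact Or.inr
  unfold fac
  simp only [h1]
  split_ifs with h2 h3 h4
  · exact le_rfl
  · obtain ⟨w, hw, hw'⟩ := h3
    exact absurd ⟨w, hw, fun h5 => hw' (union_subset_proc u a s (Finset.mem_union_left _ h5))⟩ h4
  · norm_num
  · exact le_rfl
  · exact le_rfl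

lemma fac_proc_self (u : ℤ × ℤ) (a : Dirs) (s : Config) :
    fac (proc u a s) u ≤ if a = (true, true, true, true) then 0 else 1 := by
  have h1 : u ∈ (proc u a s).2 := Finset.mem_insert_self _ _
  unfold fac
  rw [if_pos h1]
  split_ifs with h2 h3
  · subst h3
    obtain ⟨w, hw, hw'⟩ := h2
    refine absurd (union_subset_proc u _ s (Finset.mem_union_right _ ?_)) hw'
    simpa [mem_tgt, mem_nbrs] using hw
  all_goals norm_num

lemma ex_prod_fac (ht : 79 ≤ t) (u : ℤ × ℤ) (s : Config) (S : Finset (ℤ × ℤ)) :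
    ex t (fun a => ∏ v ∈ S, fac (proc u a s) v) ≤ ∏ v ∈ S, fac s v := by
  have ht0 : 0 ≤ t := by linarith
  by_cases h : u ∈ S ∧ u ∉ s.2
  · have h1 : ∀ a, ∏ v ∈ S, fac (proc u a s) v
        ≤ (∏ v ∈ S.erase u, fac s v) * if a = (true, true, true, true) then 0 else 1 := by
      intro a
      rw [← Finset.prod_erase_mul S _ h.1]
      refine mul_le_mul (Finset.prod_le_prod (fun v _ => fac_nonneg _ _) fun v hv =>
        fac_proc_le u a s v (Or.inl (Finset.ne_of_mem_erase hv))) (fac_proc_self u a s)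
        (fac_nonneg _ _) (Finset.prod_nonneg fun v _ => fac_nonneg _ _)
    refine (ex_mono ht0 h1).trans ?_
    rw [ex_mul, ← Finset.prod_erase_mul S _ h.1]
    refine mul_le_mul_of_nonneg_left ((ex_not_all ht0).trans ?_)
      (Finset.prod_nonneg fun v _ => fac_nonneg _ _)
    rw [fac, if_neg h.2, div_le_div_iff₀ (by linarith) (by norm_num)]
    linarith
  · rw [← ex_const ht0 (∏ v ∈ S, fac s v)]
    refine ex_mono ht0 fun a => Finset.prod_le_prod (fun v _ => fac_nonneg _ _) fun v hv =>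
      fac_proc_le u a s v ?_
    by_cases h2 : v = u
    · subst h2
      exact Or.inr (by tauto)
    · exact Or.inl h2

/-- total weight of the contours of length at most `M` -/
noncomputable def psi (M : ℕ) (s : Config) : ℝ :=
  ∑ m ∈ Finset.range M, ∑ x ∈ Finset.range (m + 1),
    ∑ l ∈ (kingWalks m ((x : ℤ), 0)).filter List.Nodup, ∏ v ∈ l.toFinset, fac s v

lemma psi_nonneg (M : ℕ) (s : Config) : 0 ≤ psi M s :=
  Finset.sum_nonneg fun _ _ => Finset.sum_nonneg fun _ _ => Finset.sum_nonneg fun _ _ =>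
    Finset.prod_nonneg fun _ _ => fac_nonneg _ _

lemma ex_psi (ht : 79 ≤ t) (M : ℕ) (u : ℤ × ℤ) (s : Config) :
    ex t (fun a => psi M (proc u a s)) ≤ psi M s := by
  unfold psi
  rw [ex_sum]
  refine Finset.sum_le_sum fun m _ => ?_
  rw [ex_sum]
  refine Finset.sum_le_sum fun x _ => ?_
  rw [ex_sum]
  exact Finset.sum_le_sum fun l _ => ex_prod_fac ht u s _

lemma one_le_psi (M : ℕ) (s : Config) (h : s.1 = ∅) (h0 : ((0, 0) : ℤ × ℤ) ∈ s.2)
    (hM : s.2.card ≤ M) : 1 ≤ psi M s := by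
  obtain ⟨m, x, hm, hx, l, hl, hnd, hb⟩ := exists_contour s.2 h0
  have h1 : ∏ v ∈ l.toFinset, fac s v = 1 := by
    refine Finset.prod_eq_one fun v hv => ?_
    have := hb v (List.mem_toFinset.mp hv)
    rw [fac, if_pos this.1, if_pos]
    simpa [h] using this.2
  have hnn : ∀ l : List (ℤ × ℤ), 0 ≤ ∏ v ∈ l.toFinset, fac s v := fun l =>
    Finset.prod_nonneg fun _ _ => fac_nonneg _ _
  rw [← h1]
  refine le_trans ?_ (Finset.single_le_sum (f := fun m => ∑ x ∈ Finset.range (m + 1),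
    ∑ l ∈ (kingWalks m ((x : ℤ), 0)).filter List.Nodup, ∏ v ∈ l.toFinset, fac s v)
    (fun _ _ => Finset.sum_nonneg fun _ _ => Finset.sum_nonneg fun l _ => hnn l)
    (Finset.mem_range.mpr (by omega : m < M)))
  refine le_trans ?_ (Finset.single_le_sum (f := fun x : ℕ =>
    ∑ l ∈ (kingWalks m ((x : ℤ), 0)).filter List.Nodup, ∏ v ∈ l.toFinset, fac s v)
    (fun _ _ => Finset.sum_nonneg fun l _ => hnn l) (Finset.mem_range.mpr hx))
  exact Finset.single_le_sum (f := fun l : List (ℤ × ℤ) => ∏ v ∈ l.toFinset, fac s v)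
    (fun l _ => hnn l) (Finset.mem_filter.mpr ⟨hl, hnd⟩)

lemma phi_le_psi (ht : 79 ≤ t) (M n : ℕ) : ∀ s : Config, ((0, 0) : ℤ × ℤ) ∈ s.1 ∪ s.2 →
    s.2.card + n ≤ M → phi t n s ≤ psi M s := by
  have ht0 : 0 ≤ t := by linarith
  induction n with
  | zero =>
    intro s h0 hM
    rcases s.1.eq_empty_or_nonempty with h | h
    · rw [phi_empty _ _ h]
      exact one_le_psi M s h (by simpa [h] using h0) hM
    · have : phi t 0 s = 0 := by simp [phi, h.ne_empty]
      rw [this]; exact psi_nonneg _ _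
  | succ n ih =>
    intro s h0 hM
    rcases s.1.eq_empty_or_nonempty with h | ⟨u, hu⟩
    · rw [phi_empty _ _ h]
      exact one_le_psi M s h (by simpa [h] using h0) (by omega)
    · rw [phi_succ t n hu]
      refine (ex_mono ht0 fun a => ih _ ?_ ?_).trans (ex_psi ht M u s)
      · exact union_subset_proc u a s (Finset.mem_union_left _ h0)
      · have := Finset.card_insert_le u s.2
        simp only [proc]
        omega

lemma psi_init (M : ℕ) : psi M ({(0, 0)}, ∅) ≤ 1 / 2 := by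
  have h1 : ∀ m : ℕ, ∑ x ∈ Finset.range (m + 1),
      ∑ l ∈ (kingWalks m ((x : ℤ), 0)).filter List.Nodup,
        ∏ v ∈ l.toFinset, fac ({(0, 0)}, ∅) v ≤ 1 / 20 * (9 / 10 : ℝ) ^ m := by
    intro m
    have h2 : ∀ x : ℕ, ∑ l ∈ (kingWalks m ((x : ℤ), 0)).filter List.Nodup,
        ∏ v ∈ l.toFinset, fac ({(0, 0)}, ∅) v ≤ 9 ^ m * (1 / 20 : ℝ) ^ (m + 1) := by
      intro x
      have h3 : ∀ l ∈ (kingWalks m ((x : ℤ), 0)).filter List.Nodup,
          ∏ v ∈ l.toFinset, fac ({(0, 0)}, ∅) v = (1 / 20 : ℝ) ^ (m + 1) := by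
        intro l hl
        rw [Finset.mem_filter] at hl
        simp only [fac, Finset.notMem_empty, if_false, Finset.prod_const]
        rw [List.toFinset_card_of_nodup hl.2, length_kingWalks m _ l hl.1]
      rw [Finset.sum_congr rfl h3, Finset.sum_const, nsmul_eq_mul]
      refine mul_le_mul_of_nonneg_right ?_ (by positivity)
      exact_mod_cast (Finset.card_filter_le _ _).trans (card_kingWalks m _)
    refine (Finset.sum_le_sum fun x _ => h2 x).trans ?_
    rw [Finset.sum_const, Finset.card_range, nsmul_eq_mul]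
    have h4 : ((m + 1 : ℕ) : ℝ) ≤ 2 ^ m := by exact_mod_cast Nat.lt_two_pow_self
    calc ((m + 1 : ℕ) : ℝ) * (9 ^ m * (1 / 20 : ℝ) ^ (m + 1))
        ≤ 2 ^ m * (9 ^ m * (1 / 20 : ℝ) ^ (m + 1)) :=
          mul_le_mul_of_nonneg_right h4 (by positivity)
      _ = 1 / 20 * (2 * 9 * (1 / 20) : ℝ) ^ m := by rw [mul_pow, mul_pow, pow_succ]; ring
      _ = 1 / 20 * (9 / 10 : ℝ) ^ m := by norm_num
  refine (Finset.sum_le_sum fun m _ => h1 m).trans ?_
  rw [← Finset.mul_sum, geom_sum_eq (by norm_num)]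
  have : (0 : ℝ) ≤ (9 / 10 : ℝ) ^ M := by positivity
  rw [show ((9 / 10 : ℝ) ^ M - 1) / (9 / 10 - 1) = 10 * (1 - (9 / 10 : ℝ) ^ M) by ring]
  linarith

lemma phi_init_le (ht : 79 ≤ t) (n : ℕ) : phi t n ({(0, 0)}, ∅) ≤ 1 / 2 :=
  (phi_le_psi ht n n _ (by simp) (by simp)).trans (psi_init n)

end Pool.Agent.Lib.MP_3523e7_pr
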