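import Pool.Agent.Lib.MP_3523e7_pr.Defs
import Pool.Agent.Lib.MP_3523e7_pr.Local

/-! The comparison epidemic, processed one red vertex at a time. -/

namespace Pool.Agent.Lib.MP_3523e7_pr

/-- the neighbours of `u` in the directions of `a` -/
def tgt (u : ℤ × ℤ) (a : Dirs) : Finset (ℤ × ℤ) :=
  (nbrs u).filter fun w => (a.1 = true ∧ w = (u.1 + 1, u.2)) ∨ (a.2.1 = true ∧ w = (u.1 - 1, u.2))
    ∨ (a.2.2.1 = true ∧ w = (u.1, u.2 + 1)) ∨ (a.2.2.2 = true ∧ w = (u.1, u.2 - 1))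

lemma mem_nbrs {u w : ℤ × ℤ} : w ∈ nbrs u ↔
    w = (u.1 + 1, u.2) ∨ w = (u.1 - 1, u.2) ∨ w = (u.1, u.2 + 1) ∨ w = (u.1, u.2 - 1) := by
  simp [nbrs]

lemma mem_tgt {u w : ℤ × ℤ} {a : Dirs} : w ∈ tgt u a ↔
    (a.1 = true ∧ w = (u.1 + 1, u.2)) ∨ (a.2.1 = true ∧ w = (u.1 - 1, u.2))
    ∨ (a.2.2.1 = true ∧ w = (u.1, u.2 + 1)) ∨ (a.2.2.2 = true ∧ w = (u.1, u.2 - 1)) := by
  simp only [tgt, Finset.mem_filter, mem_nbrs]
  tauto

lemma not_mem_nbrs_self (u : ℤ × ℤ) : u ∉ nbrs u := by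
  obtain ⟨x, y⟩ := u
  simp only [mem_nbrs, Prod.mk.injEq]
  omega

lemma sum_nbrs (u : ℤ × ℤ) (f : ℤ × ℤ → ℝ) : ∑ w ∈ nbrs u, f w =
    f (u.1 + 1, u.2) + f (u.1 - 1, u.2) + f (u.1, u.2 + 1) + f (u.1, u.2 - 1) := by
  obtain ⟨x, y⟩ := u
  unfold nbrs
  rw [Finset.sum_insert, Finset.sum_insert, Finset.sum_insert, Finset.sum_singleton]
  · ring
  all_goals
    simp only [Finset.mem_insert, Finset.mem_singleton, Prod.mk.injEq]
    omega

lemma card_nbrs_le (u : ℤ × ℤ) : (nbrs u).card ≤ 4 := Finset.card_le_four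

lemma card_tgt_le (u : ℤ × ℤ) (a : Dirs) : (tgt u a).card ≤ cnt a := by
  obtain ⟨a1, a2, a3, a4⟩ := a
  have h : tgt u (a1, a2, a3, a4) ⊆ ((if a1 then {(u.1 + 1, u.2)} else ∅)
      ∪ (if a2 then {(u.1 - 1, u.2)} else ∅)) ∪ ((if a3 then {(u.1, u.2 + 1)} else ∅)
      ∪ (if a4 then {(u.1, u.2 - 1)} else ∅)) := by
    intro w hw
    rcases mem_tgt.mp hw with ⟨h1, h2⟩ | ⟨h1, h2⟩ | ⟨h1, h2⟩ | ⟨h1, h2⟩ <;>
    · simp only at h1
      simp [h1, h2]
  refine (Finset.card_le_card h).trans ((Finset.card_union_le _ _).trans ?_)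
  refine (add_le_add (Finset.card_union_le _ _) (Finset.card_union_le _ _)).trans ?_
  cases a1 <;> cases a2 <;> cases a3 <;> cases a4 <;> simp [cnt]

/-- the red vertex `u` infects its white neighbours in the directions of `a` and turns blue -/
def proc (u : ℤ × ℤ) (a : Dirs) (s : Config) : Config :=
  ((s.1 ∪ (tgt u a \ s.2)).erase u, insert u s.2)

lemma mem_proc {u w : ℤ × ℤ} {a : Dirs} {s : Config} :
    w ∈ (proc u a s).1 ↔ w ≠ u ∧ (w ∈ s.1 ∨ (w ∈ tgt u a ∧ w ∉ s.2)) := by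
  simp [proc]

lemma proc_comm (u v : ℤ × ℤ) (a b : Dirs) (s : Config) :
    proc v b (proc u a s) = proc u a (proc v b s) := by
  refine Prod.ext ?_ (Finset.insert_comm _ _ _)
  ext w
  simp only [mem_proc]
  simp only [proc, Finset.mem_insert]
  tauto

/-- probability that the comparison epidemic ends after at most `n` further recoveries -/
noncomputable def phi (t : ℝ) : ℕ → Config → ℝ
  | 0, s => if s.1 = ∅ then 1 else 0
  | n + 1, s => if h : s.1.Nonempty then ex t (fun a => phi t n (proc h.choose a s)) else 1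

lemma phi_empty (t : ℝ) (n : ℕ) {s : Config} (h : s.1 = ∅) : phi t n s = 1 := by
  cases n <;> simp [phi, h]

lemma phi_swap (t : ℝ) (n : ℕ) : ∀ (s : Config) (u v : ℤ × ℤ), u ∈ s.1 → v ∈ s.1 →
    ex t (fun a => phi t n (proc u a s)) = ex t (fun a => phi t n (proc v a s)) := by
  induction n with
  | zero =>
    intro s u v hu hv
    by_cases huv : u = v
    · rw [huv]
    have h1 : ∀ a, phi t 0 (proc u a s) = 0 := fun a => by
      have : v ∈ (proc u a s).1 := mem_proc.mpr ⟨Ne.symm huv, Or.inl hv⟩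
      simp [phi, Finset.ne_empty_of_mem this]
    have h2 : ∀ a, phi t 0 (proc v a s) = 0 := fun a => by
      have : u ∈ (proc v a s).1 := mem_proc.mpr ⟨huv, Or.inl hu⟩
      simp [phi, Finset.ne_empty_of_mem this]
    simp only [h1, h2]
  | succ n ih =>
    intro s u v hu hv
    by_cases huv : u = v
    · rw [huv]
    have key : ∀ (s : Config) (u : ℤ × ℤ), u ∈ s.1 →
        phi t (n + 1) s = ex t (fun a => phi t n (proc u a s)) := by
      intro s u hu
      have hne : s.1.Nonempty := ⟨u, hu⟩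
      rw [phi, dif_pos hne]
      exact ih s _ _ hne.choose_spec hu
    have h1 : ∀ a, phi t (n + 1) (proc u a s)
        = ex t (fun b => phi t n (proc v b (proc u a s))) := fun a =>
      key _ _ (mem_proc.mpr ⟨Ne.symm huv, Or.inl hv⟩)
    have h2 : ∀ b, phi t (n + 1) (proc v b s)
        = ex t (fun a => phi t n (proc u a (proc v b s))) := fun a =>
      key _ _ (mem_proc.mpr ⟨huv, Or.inl hu⟩)
    simp only [h1, h2]
    rw [ex_comm]
    simp only [proc_comm u v]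

lemma phi_succ (t : ℝ) (n : ℕ) {s : Config} {u : ℤ × ℤ} (hu : u ∈ s.1) :
    phi t (n + 1) s = ex t (fun a => phi t n (proc u a s)) := by
  have hne : s.1.Nonempty := ⟨u, hu⟩
  rw [phi, dif_pos hne]
  exact phi_swap t n s _ _ hne.choose_spec hu

variable {t : ℝ}

lemma phi_bounds (ht : 0 ≤ t) (n : ℕ) : ∀ s, 0 ≤ phi t n s ∧ phi t n s ≤ 1 := by
  induction n with
  | zero => intro s; simp only [phi]; split_ifs <;> simp
  | succ n ih =>
    intro s
    rcases s.1.eq_empty_or_nonempty with h | ⟨u, hu⟩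
    · simp [phi_empty t _ h]
    · rw [phi_succ t n hu]
      constructor
      · rw [← ex_const ht 0]; exact ex_mono ht fun a => (ih _).1
      · rw [← ex_const ht 1]; exact ex_mono ht fun a => (ih _).2

lemma phi_le_succ (ht : 0 ≤ t) (n : ℕ) : ∀ s, phi t n s ≤ phi t (n + 1) s := by
  induction n with
  | zero =>
    intro s
    rcases s.1.eq_empty_or_nonempty with h | h
    · simp [phi_empty t _ h]
    · have : phi t 0 s = 0 := by simp [phi, h.ne_empty]
      rw [this]; exact (phi_bounds ht _ _).1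
  | succ n ih =>
    intro s
    rcases s.1.eq_empty_or_nonempty with h | ⟨u, hu⟩
    · simp [phi_empty t _ h]
    · rw [phi_succ t n hu, phi_succ t (n + 1) hu]
      exact ex_mono ht fun a => ih _

lemma phi_anti_red (ht : 0 ≤ t) (n : ℕ) : ∀ s s' : Config, s.1 ⊆ s'.1 → s.2 = s'.2 →
    phi t n s' ≤ phi t n s := by
  induction n with
  | zero =>
    intro s s' h1 _
    rcases s.1.eq_empty_or_nonempty with h | h
    · rw [phi_empty t _ h]; exact (phi_bounds ht _ _).2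
    · have : phi t 0 s' = 0 := by simp [phi, (h.mono h1).ne_empty]
      rw [this]; exact (phi_bounds ht _ _).1
  | succ n ih =>
    intro s s' h1 h2
    rcases s.1.eq_empty_or_nonempty with h | ⟨u, hu⟩
    · rw [phi_empty t _ h]; exact (phi_bounds ht _ _).2
    · rw [phi_succ t n hu, phi_succ t n (h1 hu)]
      refine ex_mono ht fun a => ih _ _ ?_ ?_
      · intro w hw
        rw [mem_proc] at hw ⊢
        rw [← h2]
        exact ⟨hw.1, hw.2.imp_left fun h => h1 h⟩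
      · simp [proc, h2]

lemma phi_succ_le_toBlue (ht : 0 ≤ t) (n : ℕ) {s : Config} {u : ℤ × ℤ} (hu : u ∈ s.1) :
    phi t (n + 1) s ≤ phi t n (s.1.erase u, insert u s.2) := by
  rw [phi_succ t n hu, ← ex_const ht (phi t n (s.1.erase u, insert u s.2))]
  refine ex_mono ht fun a => phi_anti_red ht n _ _ ?_ rfl
  intro w hw
  rw [Finset.mem_erase] at hw
  exact mem_proc.mpr ⟨hw.1, Or.inl hw.2⟩

lemma phi_eq_zero (ht : 0 ≤ t) (n : ℕ) : ∀ s : Config, n < s.1.card → phi t n s = 0 := by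
  induction n with
  | zero => intro s h; simp [phi, (Finset.card_pos.mp h).ne_empty]
  | succ n ih =>
    intro s h
    obtain ⟨u, hu⟩ : s.1.Nonempty := Finset.card_pos.mp (by omega)
    refine le_antisymm ((phi_succ_le_toBlue ht n hu).trans (ih _ ?_).le) (phi_bounds ht _ _).1
    simp only [Finset.card_erase_of_mem hu]
    omega

lemma phi_local (ht : 0 ≤ t) (n : ℕ) {s : Config} {u : ℤ × ℤ} (hu : u ∈ s.1) :
    (1 + t * ((nbrs u \ (s.1 ∪ s.2)).card : ℝ)) * phi t (n + 1) s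
      = phi t n (s.1.erase u, insert u s.2)
        + t * ∑ w ∈ nbrs u \ (s.1 ∪ s.2), phi t (n + 1) (insert w s.1, s.2) := by
  classical
  set d : Dirs := (decide ((u.1 + 1, u.2) ∉ s.1 ∪ s.2), decide ((u.1 - 1, u.2) ∉ s.1 ∪ s.2),
    decide ((u.1, u.2 + 1) ∉ s.1 ∪ s.2), decide ((u.1, u.2 - 1) ∉ s.1 ∪ s.2)) with hd
  have hsum : ∀ f : ℤ × ℤ → ℝ, ∑ w ∈ nbrs u \ (s.1 ∪ s.2), f w
      = (if d.1 then f (u.1 + 1, u.2) else 0) + (if d.2.1 then f (u.1 - 1, u.2) else 0)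
        + (if d.2.2.1 then f (u.1, u.2 + 1) else 0) + (if d.2.2.2 then f (u.1, u.2 - 1) else 0) := by
    intro f
    rw [Finset.sdiff_eq_filter, Finset.sum_filter, sum_nbrs]
    simp only [hd, decide_eq_true_eq]
  have hcard : ((nbrs u \ (s.1 ∪ s.2)).card : ℝ) = cnt d := by
    rw [Finset.card_eq_sum_ones, Nat.cast_sum, hsum]
    obtain ⟨d1, d2, d3, d4⟩ := d
    cases d1 <;> cases d2 <;> cases d3 <;> cases d4 <;> simp [cnt] <;> norm_num
  have hinter : ∀ a, proc u (inter a d) s = proc u a s := by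
    intro a
    refine Prod.ext ?_ rfl
    ext w
    simp only [mem_proc, mem_tgt, inter, hd, Bool.and_eq_true, decide_eq_true_eq]
    refine and_congr_right fun _ => ⟨?_, ?_⟩
    · rintro (h | ⟨h, h4⟩)
      · exact Or.inl h
      · refine Or.inr ⟨?_, h4⟩
        rcases h with ⟨⟨h, _⟩, h'⟩ | ⟨⟨h, _⟩, h'⟩ | ⟨⟨h, _⟩, h'⟩ | ⟨⟨h, _⟩, h'⟩
        · exact Or.inl ⟨h, h'⟩
        · exact Or.inr (Or.inl ⟨h, h'⟩)
        · exact Or.inr (Or.inr (Or.inl ⟨h, h'⟩))
        · exact Or.inr (Or.inr (Or.inr ⟨h, h'⟩))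
    · rintro (h | ⟨h, h4⟩)
      · exact Or.inl h
      by_cases h3 : w ∈ s.1
      · exact Or.inl h3
      have h5 : w ∉ s.1 ∪ s.2 := by simp [h3, h4]
      refine Or.inr ⟨?_, h4⟩
      rcases h with ⟨h, h'⟩ | ⟨h, h'⟩ | ⟨h, h'⟩ | ⟨h, h'⟩
      · exact Or.inl ⟨⟨h, h' ▸ h5⟩, h'⟩
      · exact Or.inr (Or.inl ⟨⟨h, h' ▸ h5⟩, h'⟩)
      · exact Or.inr (Or.inr (Or.inl ⟨⟨h, h' ▸ h5⟩, h'⟩))
      · exact Or.inr (Or.inr (Or.inr ⟨⟨h, h' ▸ h5⟩, h'⟩))
  have hred : ∀ (w : ℤ × ℤ) (g : Dirs → Dirs), w ∉ s.1 ∪ s.2 →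
      (∀ a v, v ∈ tgt u (g a) ↔ v = w ∨ v ∈ tgt u a) →
      phi t (n + 1) (insert w s.1, s.2) = ex t (fun a => phi t n (proc u (g a) s)) := by
    intro w g hw hg
    rw [phi_succ t n (u := u) (Finset.mem_insert_of_mem hu)]
    congr 1
    ext a
    congr 1
    refine Prod.ext ?_ rfl
    ext v
    simp only [mem_proc, hg, Finset.mem_insert]
    simp only [Finset.mem_union, not_or] at hw
    refine and_congr_right fun _ => ⟨?_, ?_⟩
    · rintro ((rfl | h2) | h2)
      · exact Or.inr ⟨Or.inl rfl, hw.2⟩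
      · exact Or.inl h2
      · exact Or.inr ⟨Or.inr h2.1, h2.2⟩
    · rintro (h2 | ⟨h2 | h2, h3⟩)
      · exact Or.inl (Or.inr h2)
      · exact Or.inl (Or.inl h2)
      · exact Or.inr ⟨h2, h3⟩
  have h0 : proc u (false, false, false, false) s = (s.1.erase u, insert u s.2) := by
    refine Prod.ext ?_ rfl
    ext w
    simp [mem_proc, mem_tgt]
  have hm := ex_memoryless ht d (fun a => phi t n (proc u a s))
  rw [hcard, hsum, phi_succ t n hu, ← h0]
  simp only [hinter] at hm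
  rw [hm]
  congr 2
  congr 1
  congr 1
  congr 1
  all_goals
    split_ifs with h
    · refine (hred _ _ (by simpa [hd] using h) fun a v => ?_).symm
      simp only [mem_tgt, true_and]
      clear hm h0 hred hinter hcard hsum
      tauto
    · rfl

end Pool.Agent.Lib.MP_3523e7_pr
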